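import Mathlib
import Pool.Agent.H.MP_99db3a_nt.B

namespace Pool.Agent.Results.MP_99db3a_nt.Disproof

open Polynomial Pool.Agent.H.MP_99db3a_nt

/-- The number of real roots of the derivative of the `m`-th cyclotomic polynomial,
counted with multiplicity. -/
noncomputable def N (m : ℕ) : ℕ := (derivative (cyclotomic m ℝ)).roots.card

theorem upper : N (21 * 59) ≤ 5 := by
  classical
  unfold N
  set Q := derivative (cyclotomic (21 * 59) ℝ) with hQ
  have C0 : ∀ x : ℝ, 0 < (cyclotomic (21 * 59) ℝ).eval x := cyclotomic_pos (by norm_num)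
  have h1 : ∀ x, Q.eval x = 0 → (∃ j < 5, I j x) ∧ L x = 0 := fun x hx => by
    have h := (key 21 (by norm_num) x).2
    have h' := QL x
    rw [← hQ, hx] at h h'
    simp only [ep, eq'] at h
    exact ⟨loc x (by linarith), (mul_eq_zero.1 (by linarith)).resolve_right (C0 x).ne'⟩
  have h2 : ∀ x, Q.eval x = 0 → (derivative Q).eval x ≠ 0 := fun x hx e => by
    obtain ⟨⟨j, -, hj⟩, h0⟩ := h1 x hx
    have a := (hasDerivAt_id' x).mul (Q.hasDerivAt x)
    have b := (dL x).mul ((cyclotomic (21 * 59) ℝ).hasDerivAt x)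
    have := (a.congr_of_eventuallyEq (Filter.Eventually.of_forall fun y => (QL y).symm)).unique b
    rw [hx, e, h0] at this
    exact (der j x hj).2 ((mul_eq_zero.1 (by linarith)).resolve_right (C0 x).ne')
  have nd : Q.roots.Nodup := by
    rw [Multiset.nodup_iff_count_le_one]
    intro x
    rw [count_roots]
    by_contra h
    by_cases q0 : Q = 0
    · simp [q0] at h
    have := (one_lt_rootMultiplicity_iff_isRoot q0).1 (not_le.1 h)
    exact h2 x this.1 this.2
  have cv : ∀ j x y z, I j x → I j y → x < z → z < y → I j z := by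
    intro j x y z hx hy a b
    rcases j with _ | _ | _ | _ | j <;> exact ⟨by linarith [hx.1], by linarith [hy.2]⟩
  have uq : ∀ j x y, I j x → I j y → L x = 0 → L y = 0 → ¬ x < y := by
    intro j x y hx hy a b h
    obtain ⟨c, hc, e⟩ := exists_hasDerivAt_eq_zero h
      (fun z _ => (dL z).continuousAt.continuousWithinAt) (a.trans b.symm) fun z _ => dL z
    exact (der j c (cv j x y c hx hy hc.1 hc.2)).2 e
  rw [← Multiset.toFinset_card_of_nodup nd]
  have r : ∀ x ∈ Q.roots.toFinset, Q.eval x = 0 := fun x hx =>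
    (mem_roots'.1 (Multiset.mem_toFinset.1 hx)).2
  choose! f f1 f2 using fun x hx => (h1 x (r x hx)).1
  refine (Finset.card_le_card_of_injOn (t := Finset.range 5) f
    (fun x hx => by simpa using f1 x hx) fun x hx y hy e => ?_).trans (by simp)
  have a := f2 x hx; have b := f2 y hy
  rw [e] at a
  exact le_antisymm (not_lt.1 (uq _ y x b a (h1 y (r y hy)).2 (h1 x (r x hx)).2))
    (not_lt.1 (uq _ x y a b (h1 x (r x hx)).2 (h1 y (r y hy)).2))

theorem lower : 7 ≤ N (15 * 59) := by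
  classical
  unfold N
  set Q := derivative (cyclotomic (15 * 59) ℝ) with hQ
  have sg : ∀ x s : ℝ, 0 < s * (59 * x ^ 58 * (derivative (cyclotomic 15 ℝ)).eval (x ^ 59) *
      (cyclotomic 15 ℝ).eval x - (derivative (cyclotomic 15 ℝ)).eval x *
      (cyclotomic 15 ℝ).eval (x ^ 59)) → 0 < s * Q.eval x := fun x s h => by
    rw [← (key 15 (by norm_num) x).2, ← mul_assoc] at h
    exact (mul_pos_iff_of_pos_right (pow_pos (cyclotomic_pos (by norm_num) x) 2)).1 h
  have iv : ∀ a b s : ℝ, a < b → 0 < s * Q.eval a → 0 < -s * Q.eval b →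
      ∃ x, a < x ∧ x < b ∧ Q.eval x = 0 := fun a b s h ha hb => by
    obtain ⟨x, hx, e⟩ := intermediate_value_Ioo' h.le (f := fun x => s * Q.eval x)
      (by fun_prop) (show (0 : ℝ) ∈ Set.Ioo _ _ from ⟨by linarith, ha⟩)
    exact ⟨x, hx.1, hx.2, (mul_eq_zero.1 e).resolve_left fun e => by simp [e] at ha⟩
  have s0 := sg (-1) (-1) (by rw [c15]; simp; norm_num)
  have s1 := sg (-199 / 200) (- -1) (by rw [c15]; simp; norm_num)
  have s2 := sg (-19 / 20) (- - -1) (by rw [c15]; simp; norm_num)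
  have s3 := sg (-23 / 25) (- - - -1) (by rw [c15]; simp; norm_num)
  have s4 := sg (-7 / 10) (- - - - -1) (by rw [c15]; simp; norm_num)
  have s5 := sg 0 (- - - - - -1) (by rw [c15]; simp)
  have s6 := sg (9 / 10) (- - - - - - -1) (by rw [c15]; simp; norm_num)
  have s7 := sg 1 (- - - - - - - -1) (by rw [c15]; simp; norm_num)
  obtain ⟨x1, a1, b1, c1⟩ := iv _ _ _ (by norm_num) s0 s1
  obtain ⟨x2, a2, b2, c2⟩ := iv _ _ _ (by norm_num) s1 s2
  obtain ⟨x3, a3, b3, c3⟩ := iv _ _ _ (by norm_num) s2 s3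
  obtain ⟨x4, a4, b4, c4⟩ := iv _ _ _ (by norm_num) s3 s4
  obtain ⟨x5, a5, b5, c5⟩ := iv _ _ _ (by norm_num) s4 s5
  obtain ⟨x6, a6, b6, c6⟩ := iv _ _ _ (by norm_num) s5 s6
  obtain ⟨x7, a7, b7, c7⟩ := iv _ _ _ (by norm_num) s6 s7
  have q0 : Q ≠ 0 := fun e => by simp [e] at s0
  have nd : ([x1, x2, x3, x4, x5, x6, x7] : List ℝ).Nodup :=
    List.SortedLT.nodup (List.IsChain.sortedLT (by simp; refine ⟨?_, ?_, ?_, ?_, ?_, ?_⟩ <;> linarith))
  have := Multiset.card_le_card ((Multiset.le_iff_subset (s := ↑[x1, x2, x3, x4, x5, x6, x7])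
    (t := Q.roots) (Multiset.coe_nodup.2 nd)).2 fun x hx => (mem_roots q0).2 (by
      simp only [Multiset.mem_coe, List.mem_cons, List.not_mem_nil, or_false] at hx
      rcases hx with rfl | rfl | rfl | rfl | rfl | rfl | rfl <;> assumption))
  simpa using this

theorem result : N (177 * 7) ≤ 5 ∧ 7 ≤ N (177 * 5) ∧
    ¬ ∀ n p p' : ℕ, Odd n → Squarefree n → 1 < n → p.Prime → p'.Prime → p < p' → ¬ p ∣ n →
      ¬ p' ∣ n → N (n * p) ≤ N (n * p') := by
  refine ⟨upper, lower, fun h => ?_⟩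
  have := h 177 5 7 (by decide) ((Nat.squarefree_mul (m := 3) (n := 59) (by norm_num)).2
    ⟨Nat.prime_three.squarefree, (by norm_num : Nat.Prime 59).squarefree⟩) (by norm_num)
    (by norm_num) (by norm_num) (by norm_num) (by norm_num) (by norm_num)
  have a : N 1239 ≤ 5 := upper
  have b : 7 ≤ N 885 := lower
  norm_num at this; omega

end Pool.Agent.Results.MP_99db3a_nt.Disproof
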